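import Pool.Agent.H61.PencilB
import Pool.Graph.R_pool_sql_team_seeded_3997aac3.Results.MP_c0f1e3_an.DimensionOne

set_option autoImplicit false
open Set Module

namespace Pool.Agent.Results.MP_c0f1e3_an.HyperplanePencils

open Pool.Agent.Q224.RY

/-- some finitely generated commutative linear semigroup has an orbit dense along `Y` (its closure
contains `Y`) while none of its orbits is somewhere dense -/
def Avoidable (𝕜 V : Type) [RCLike 𝕜] [NormedAddCommGroup V] [NormedSpace 𝕜 V] (Y : Set V) : Prop :=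
  ∃ S : Subsemigroup (LinearMap.GeneralLinearGroup 𝕜 V), FGComm S ∧
    (∃ v, Y ⊆ closure (orbit S v)) ∧ ∀ v, ¬ SomewhereDense (orbit S v)

theorem conv {𝕜 V : Type} [RCLike 𝕜] [NormedAddCommGroup V] [NormedSpace 𝕜 V] (Y : Set V)
    (h : ∃ G : Set (V ≃ₗ[𝕜] V), G.Finite ∧ G.Nonempty ∧ (∀ g ∈ G, ∀ g' ∈ G, g * g' = g' * g) ∧
      (∃ v, ∀ x ∈ Y, x ∈ closure {x | ∃ s ∈ Subsemigroup.closure G, s v = x}) ∧
      ∀ y, interior (closure {x | ∃ s ∈ Subsemigroup.closure G, s y = x}) = ∅) : Avoidable 𝕜 V Y := by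
  obtain ⟨G, h1, h2, h3, ⟨v, h4⟩, h5⟩ := h
  let e := LinearMap.GeneralLinearGroup.generalLinearEquiv 𝕜 V
  have a1 : ∀ s ∈ Subsemigroup.closure (e.symm '' G), e s ∈ Subsemigroup.closure G := fun s hs => by
    induction hs using Subsemigroup.closure_induction with
    | mem s hs =>
      obtain ⟨g, hg, rfl⟩ := hs
      simpa using Subsemigroup.subset_closure hg
    | mul a b _ _ ha hb => rw [map_mul]; exact mul_mem ha hb
  have a2 : ∀ s ∈ Subsemigroup.closure G, e.symm s ∈ Subsemigroup.closure (e.symm '' G) := fun s hs => by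
    induction hs using Subsemigroup.closure_induction with
    | mem s hs => exact Subsemigroup.subset_closure ⟨s, hs, rfl⟩
    | mul a b _ _ ha hb => rw [map_mul]; exact mul_mem ha hb
  have a3 : ∀ v, orbit (Subsemigroup.closure (e.symm '' G)) v = {x | ∃ s ∈ Subsemigroup.closure G, s v = x} := fun v => by
    ext x
    constructor
    · rintro ⟨s, hs, rfl⟩
      exact ⟨e s, a1 s hs, rfl⟩
    · rintro ⟨s, hs, rfl⟩
      exact ⟨e.symm s, a2 s hs, rfl⟩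
  refine ⟨Subsemigroup.closure (e.symm '' G), ⟨e.symm '' G, h1.image _, h2.image _, ?_, rfl⟩,
    ⟨v, by rw [a3]; exact h4⟩, fun v => by rw [SomewhereDense, a3, h5]; simp⟩
  rintro _ ⟨a, ha, rfl⟩ _ ⟨b, hb, rfl⟩
  rw [← map_mul, ← map_mul, h3 a ha b hb]

theorem pencil (𝕜 V : Type) [RCLike 𝕜] [NormedAddCommGroup V] [NormedSpace 𝕜 V] [FiniteDimensional 𝕜 V]
    (U : Submodule 𝕜 V) (hU : finrank 𝕜 U + 2 ≤ finrank 𝕜 V) (𝓛 : Set (Submodule 𝕜 V)) (hf : 𝓛.Finite)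
    (h𝓛 : ∀ L ∈ 𝓛, finrank 𝕜 (U ⊔ L : Submodule 𝕜 V) ≤ finrank 𝕜 U + 1) :
    Avoidable 𝕜 V (⋃ L ∈ 𝓛, (L : Set V)) := by
  obtain ⟨w0, -, hw0⟩ : ∃ x ∈ (⊤ : Submodule 𝕜 V), x ∉ U := SetLike.exists_of_lt (lt_top_iff_ne_top.2 fun h => by
    rw [h, finrank_top] at hU; omega)
  have key : ∀ L : 𝓛, ∃ w : V, w ∉ U ∧ L.1 ≤ U ⊔ Submodule.span 𝕜 {w} := fun L => by
    by_cases h : L.1 ≤ U
    · exact ⟨w0, hw0, h.trans le_sup_left⟩
    obtain ⟨w, hw, hw'⟩ := SetLike.not_le_iff_exists.1 h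
    have h1 : U ⊔ Submodule.span 𝕜 {w} ≤ U ⊔ L.1 := sup_le_sup_left (by simpa using hw) U
    have h2 : U < U ⊔ Submodule.span 𝕜 {w} := lt_of_le_of_ne le_sup_left fun h => hw' (by
      rw [h]; exact Submodule.mem_sup_right (Submodule.mem_span_singleton_self w))
    have h3 := Submodule.finrank_lt_finrank_of_lt h2
    have h4 := Submodule.eq_of_le_of_finrank_le h1 ((h𝓛 L.1 L.2).trans h3)
    exact ⟨w, hw', by rw [h4]; exact le_sup_right⟩
  choose w hw hw' using key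
  have := hf.to_subtype
  obtain ⟨G, h1, h2, h3, ⟨v, h4⟩, h5⟩ := Pool.Agent.H61.Pencil.neg 𝕜 V U hU w hw
  refine conv _ ⟨G, h1, h2, h3, ⟨v, fun x hx => ?_⟩, h5⟩
  obtain ⟨L, hL, hx⟩ := mem_iUnion₂.1 hx
  exact h4 ⟨L, hL⟩ x (hw' ⟨L, hL⟩ hx)

/-- Complete answer for rays, and: not even finitely many hyperplanes containing a common subspace
of codimension two force a somewhere dense orbit. -/
theorem result :
    (∀ (V : Type) [NormedAddCommGroup V] [NormedSpace ℝ V] [FiniteDimensional ℝ V],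
      Forcing ℝ V ↔ finrank ℝ V ≤ 1) ∧
    (∀ (V : Type) [NormedAddCommGroup V] [NormedSpace ℂ V] [FiniteDimensional ℂ V],
      Forcing ℂ V ↔ finrank ℂ V ≤ 1) ∧
    ∀ (𝕜 V : Type) [RCLike 𝕜] [NormedAddCommGroup V] [NormedSpace 𝕜 V] [FiniteDimensional 𝕜 V]
      (U : Submodule 𝕜 V), finrank 𝕜 U + 2 ≤ finrank 𝕜 V → ∀ 𝓛 : Set (Submodule 𝕜 V), 𝓛.Finite →
      (∀ L ∈ 𝓛, finrank 𝕜 (U ⊔ L : Submodule 𝕜 V) ≤ finrank 𝕜 U + 1) →
      Avoidable 𝕜 V (⋃ L ∈ 𝓛, (L : Set V)) :=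
  ⟨DimensionOne.result.1, DimensionOne.result.2, fun 𝕜 V _ _ _ _ U hU 𝓛 hf h => pencil 𝕜 V U hU 𝓛 hf h⟩

end Pool.Agent.Results.MP_c0f1e3_an.HyperplanePencils
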